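import Pool.Agent.H11.Mk1

namespace H11.Mk

def Arc (x y : X) : Prop := ∃ s, y = rot s x ∧ x.1 ≠ y.1

lemma main (M : Set X) (hM : MeasurableSet M) (hd : ∀ x, x ∈ M ∨ ∃ y ∈ M, Arc x y)
    (c : M → Fin 2) (hc : Measurable c) (hp : ∀ x y : M, Arc x y → c x ≠ c y) : False := by
  let A : Fin 2 → Set X := fun i => Subtype.val '' (c ⁻¹' {i})
  have hA : ∀ i, MeasurableSet (A i) := fun i =>
    hM.subtype_image (hc (MeasurableSet.singleton i))
  have hAM : ∀ x, x ∈ M ↔ x ∈ A 0 ∨ x ∈ A 1 := by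
    intro x
    constructor
    · intro hx
      have : c ⟨x, hx⟩ = 0 ∨ c ⟨x, hx⟩ = 1 := by
        generalize c ⟨x, hx⟩ = a
        revert a; decide
      rcases this with h | h
      · exact Or.inl ⟨_, h, rfl⟩
      · exact Or.inr ⟨_, h, rfl⟩
    · rintro (⟨y, _, rfl⟩ | ⟨y, _, rfl⟩) <;> exact y.2
  have hI : ∀ i x y, x ∈ A i → y ∈ A i → ¬ Arc x y := by
    rintro i _ _ ⟨x, hx, rfl⟩ ⟨y, hy, rfl⟩ h
    exact hp x y h (hx.trans hy.symm)
  have h01 : ∀ x, x ∈ A 0 → x ∉ A 1 := by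
    rintro _ ⟨x, hx, rfl⟩ ⟨y, hy, e⟩
    rw [Subtype.ext e] at hy
    exact absurd (hx.symm.trans hy) (by decide)
  obtain ⟨s, x, hx⟩ := marks (S := A 0 ∪ (Mᶜ ∩ rot false ⁻¹' M))
    ((hA 0).union (hM.compl.inter (meas_rot false hM)))
  have arc : ∀ i, Arc (x i) (x (i + 1)) := fun i => ⟨s, (hx i).2.2.symm, (hx i).2.1⟩
  have key : ∃ j, ∀ i, (x i ∈ M → x i ∈ A j) ∧ (x i ∉ M → x (i + 1) ∈ M) := by
    cases s
    · refine ⟨0, fun i => ?_⟩
      have := (hx i).1.2 rfl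
      rw [← (hx i).2.2]
      rcases this with h | h
      · exact ⟨fun _ => h, fun h' => (h' ((hAM _).2 (Or.inl h))).elim⟩
      · exact ⟨fun h' => (h.1 h').elim, fun _ => h.2⟩
    · refine ⟨1, fun i => ?_⟩
      have : x i ∉ A 0 ∪ (Mᶜ ∩ rot false ⁻¹' M) := fun h => by simpa using (hx i).1.1 h
      rw [← (hx i).2.2]
      refine ⟨fun h => ((hAM _).1 h).resolve_left fun h' => this (Or.inl h'), fun h => ?_⟩
      obtain ⟨y, hy, t, rfl, _⟩ := (hd (x i)).resolve_left h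
      cases t
      · exact (this (Or.inr ⟨h, hy⟩)).elim
      · exact hy
  obtain ⟨j, hj⟩ := key
  have alt : ∀ i, x i ∈ M ↔ x (i + 1) ∉ M := fun i =>
    ⟨fun h h' => hI j _ _ ((hj i).1 h) ((hj _).1 h') (arc i), fun h => by
      by_contra h'; exact h ((hj i).2 h')⟩
  have a0 := alt 0
  have a1 := alt 1
  have a2 := alt 2
  have e0 : (0 : Fin 3) + 1 = 1 := rfl
  have e1 : (1 : Fin 3) + 1 = 2 := rfl
  have e2 : (2 : Fin 3) + 1 = 0 := rfl
  rw [e0] at a0
  rw [e1] at a1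
  rw [e2] at a2
  tauto

end H11.Mk

namespace Pool.Agent.Results.MP_b8e903_lc.NoBipartite
open H11.Mk

theorem result : ∃ (V : Type) (_ : MeasurableSpace V) (_ : StandardBorelSpace V)
    (A : V → V → Prop), MeasurableSet {p : V × V | A p.1 p.2} ∧ (∀ x, ¬ A x x) ∧
    (∀ x, {y | A x y ∨ A y x}.Countable) ∧ (∀ x, {y | A x y}.encard ≤ 2) ∧
    (∃ (k : ℕ) (c : V → Fin k), Measurable c ∧ ∀ x y, A x y → c x ≠ c y) ∧
    ∀ M : Set V, MeasurableSet M → (∀ x, x ∈ M ∨ ∃ y ∈ M, A x y) →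
      ¬ ∃ c : M → Fin 2, Measurable c ∧ ∀ x y : M, A x y → c x ≠ c y := by
  have hsub : ∀ x, {y | Arc x y} ⊆ {rot false x, rot true x} := by
    rintro x y ⟨s, rfl, _⟩
    cases s <;> simp
  refine ⟨X, inferInstance, inferInstance, Arc, ?_, ?_, fun x => ?_, fun x => ?_,
    ⟨5, Prod.fst, measurable_fst, ?_⟩, ?_⟩
  · simp only [Arc, Set.setOf_exists]
    refine MeasurableSet.iUnion fun s => MeasurableSet.inter
      (measurableSet_eq_fun measurable_snd ((meas_rot s).comp measurable_fst)) ?_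
    exact (measurableSet_eq_fun (measurable_fst.comp measurable_fst)
      (measurable_fst.comp measurable_snd)).compl
  · rintro x ⟨_, _, h⟩
    exact h rfl
  · refine Set.Finite.countable (Set.Finite.subset (s := {rot false x, rot true x,
      rot false (rot false x), rot true (rot true x)}) (Set.toFinite _) ?_)
    rintro y (⟨s, rfl, _⟩ | ⟨s, rfl, _⟩)
    · cases s <;> simp
    · cases s <;> simp [rot3]
  · refine (Set.encard_le_encard (hsub x)).trans ((Set.encard_insert_le _ _).trans ?_)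
    rw [Set.encard_singleton]; rfl
  · rintro x y ⟨_, _, h⟩
    exact h
  · rintro M hM hd ⟨c, hc, hp⟩
    exact main M hM hd c hc hp

end Pool.Agent.Results.MP_b8e903_lc.NoBipartite
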